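import Pool.Agent.H749.GX.Vb

/-!
# `Ext^{s,t} = 0` for `α(t) > s`: long gaps in the binary expansion of `t`

`Ext s t` is `Ext_A^{s,t}(𝔽₂, 𝔽₂)` for the mod 2 Steenrod algebra `A`: the cohomology of the cobar
complex of the dual Steenrod algebra `𝔽₂[ξ₁, ξ₂, …]` in degree `s` and internal degree `t : ℤ`
(file `Pool/Agent/H749/GK/Def.lean`). `(Nat.digits 2 t).count 1` is `α(t)`, the number of ones in the
binary expansion of `t`.

Let `t = T_0 + … + T_n`, where `T_i < 2 ^ {q_i}` and `T_{i+1}` is divisible by `2 ^ {q_i + 2 s + 1}`: the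
binary expansion of `t` consists of the blocks `T_i`, separated by at least `2 s + 1` zeros.

1. If `Ext^{a,T_i} = 0` for all `a < β_i`, `a ≤ s`, then `Ext^{s,t} = 0` for `s < β_0 + … + β_n`.
   In particular, if the statement of Q1 holds for the `T_i` (on the lines `≤ s`) then it holds for
   `t`.
2. `Ext^{s,t} = 0` if `s < ∑ᵢ min (α(T_i), ⌊(α(T_i) + 3) / 2⌋)`. In particular, Q1 has a positive answer
   for `t` if each block has at most three ones: `Ext^{s,t} = 0` for `s < α(t)`.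
3. If Q1 has a positive answer for all `Ext^{a,t}` with `a ≤ s`, `a < α(t) ≤ 2 a - 2` and
   `t < 2 ^ {2 s (2 s - 1)}`, then it has a positive answer for all `Ext^{a,t}` with `a ≤ s`. So Q1 on a
   given line is reduced to finitely many bidegrees.
4. Q1 has a positive answer, on the line `s`, outside of a set of degrees of codimension
   `2 (α(t) - s) + 1`: for all `n > s` there is `C` such that for all `N`, among the `t < 2 ^ N` with
   `α(t) = n`, the proportion of those with `Ext^{s,t} ≠ 0` is at most `C / N ^ (2 (n - s) + 1)`. (For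
   `t` as in (2) with at most three ones in each block `Ext^{s,t} = 0`.)
-/

set_option autoImplicit false

namespace Pool.Agent.Results.MP_dbb2d3_gt.GapSplitting

open Pool.Agent.H749.GK.St Finset

/-- Splitting at long gaps, the vanishing for blocks with few ones, the reduction of the
vanishing on the lines `≤ s` to finitely many degrees, and the vanishing in almost all degrees. -/
theorem result (s : ℕ) :
    (∀ (T q β : ℕ → ℕ) (n : ℕ), (∀ i, T i < 2 ^ q i) → (∀ i, 2 ^ (q i + 2 * s + 1) ∣ T (i + 1)) →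
      (∀ i, q i ≤ q (i + 1)) → (∀ i a, a < β i → a ≤ s → ∀ x : Ext a (T i : ℤ), x = 0) →
      s < ∑ i ∈ range (n + 1), β i → ∀ x : Ext s ((∑ i ∈ range (n + 1), T i : ℕ) : ℤ), x = 0) ∧
    (∀ (T q : ℕ → ℕ) (n : ℕ), (∀ i, T i < 2 ^ q i) → (∀ i, 2 ^ (q i + 2 * s + 1) ∣ T (i + 1)) →
      (∀ i, q i ≤ q (i + 1)) → s < ∑ i ∈ range (n + 1),
        min ((Nat.digits 2 (T i)).count 1) (((Nat.digits 2 (T i)).count 1 + 3) / 2) →
      ∀ x : Ext s ((∑ i ∈ range (n + 1), T i : ℕ) : ℤ), x = 0) ∧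
    ((∀ a ≤ s, ∀ t < 2 ^ (2 * s * (2 * s - 1)), a < (Nat.digits 2 t).count 1 →
        (Nat.digits 2 t).count 1 + 2 ≤ 2 * a → ∀ x : Ext a (t : ℤ), x = 0) →
      ∀ a ≤ s, ∀ t : ℕ, a < (Nat.digits 2 t).count 1 → ∀ x : Ext a (t : ℤ), x = 0) ∧
    ∀ n : ℕ, s < n → ∃ C : ℕ, ∀ N : ℕ,
      N ^ (2 * (n - s) + 1) * {t : ℕ | t < 2 ^ N ∧ (Nat.digits 2 t).count 1 = n ∧
        ∃ x : Ext s (t : ℤ), x ≠ 0}.ncard
        ≤ C * {t : ℕ | t < 2 ^ N ∧ (Nat.digits 2 t).count 1 = n}.ncard := by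
  simp only [Pool.Agent.Q171.DG.count_al]
  exact ⟨fun T q β n h1 h2 h3 h4 hs => Pool.Agent.H749.GV.blocks h1 h2 h3 h4 n s le_rfl hs,
    fun T q n h1 h2 h3 hs => Pool.Agent.H749.GV.blocks_min h1 h2 h3 n hs,
    fun h a ha t hat => Pool.Agent.H749.GV.reduction s h t a ha hat,
    Pool.Agent.H749.GX.codimN s⟩

end Pool.Agent.Results.MP_dbb2d3_gt.GapSplitting
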